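import Pool.Agent.Lib.MP_a60258_hol.Defs

/-!
# Counting words, Leibniz rule on words
-/

open Finset MvPolynomial

namespace Pool.Agent.Hol.H84

theorem cnt_eq_sum {τ : Type} [DecidableEq τ] {N : ℕ} (u : Fin N → τ) (t : τ) :
    cnt u t = ∑ k, if u k = t then 1 else 0 := by
  rw [cnt, Finset.card_filter]

theorem cnt_cons {τ : Type} [DecidableEq τ] {N : ℕ} (a : τ) (u : Fin N → τ) :
    cnt (Fin.cons a u : Fin (N + 1) → τ) = cnt u + Pi.single a 1 := by
  funext t
  rw [cnt_eq_sum, Fin.sum_univ_succ, Pi.add_apply, cnt_eq_sum]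
  simp only [Fin.cons_zero, Fin.cons_succ]
  rw [add_comm]
  congr 1
  by_cases h : a = t
  · subst h; simp
  · rw [if_neg h, Pi.single_eq_of_ne (Ne.symm h)]

theorem sum_words_succ {τ : Type} [Fintype τ] {N : ℕ} (f : (Fin (N + 1) → τ) → ℂ) :
    ∑ u, f u = ∑ a : τ, ∑ u : Fin N → τ, f (Fin.cons a u) := by
  rw [← (Fin.consEquiv (fun _ : Fin (N + 1) => τ)).sum_comp, Fintype.sum_prod_type]
  rfl

theorem shift_sum {τ : Type} [Fintype τ] [DecidableEq τ] (N L : ℕ) (hL : N + 1 ≤ L)
    (Φ : (τ → ℕ) → ℂ) (hΦ : ∀ m, ∑ t, m t ≠ N + 1 → Φ m = 0) (a : τ) :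
    ∑ m ∈ Fintype.piFinset (fun _ : τ => range (L + 1)),
        Φ (m + Pi.single a 1) / ∏ t, ((m t).factorial : ℂ)
      = ∑ m ∈ Fintype.piFinset (fun _ : τ => range (L + 1)),
        (m a : ℂ) * (Φ m / ∏ t, ((m t).factorial : ℂ)) := by
  have hprod : ∀ m : τ → ℕ, ∏ t, ((((m + Pi.single a 1 : τ → ℕ)) t).factorial : ℂ) =
      ((m a + 1 : ℕ) : ℂ) * ∏ t, ((m t).factorial : ℂ) := by
    intro m
    rw [← Finset.mul_prod_erase Finset.univ _ (Finset.mem_univ a), ← Finset.mul_prod_erase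
      Finset.univ (fun t => ((m t).factorial : ℂ)) (Finset.mem_univ a), ← mul_assoc]
    congr 1
    · rw [Pi.add_apply, Pi.single_eq_same, Nat.factorial_succ]
      push_cast; ring
    · refine Finset.prod_congr rfl fun t ht => ?_
      rw [Pi.add_apply, Pi.single_eq_of_ne (Finset.ne_of_mem_erase ht), add_zero]
  have hp0 : ∀ m : τ → ℕ, (∏ t, ((m t).factorial : ℂ)) ≠ 0 := fun m =>
    Finset.prod_ne_zero_iff.2 fun t _ => by exact_mod_cast Nat.factorial_ne_zero _
  refine Finset.sum_bij_ne_zero (fun m _ _ => m + Pi.single a 1) ?_ ?_ ?_ ?_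
  · intro m _ h2
    rw [Fintype.mem_piFinset]
    intro t
    rw [Finset.mem_range]
    have h3 : ∑ t, (m + Pi.single a 1 : τ → ℕ) t = N + 1 := by
      by_contra hne
      exact h2 (by rw [hΦ _ hne, zero_div])
    have h4 : (m + Pi.single a 1 : τ → ℕ) t ≤ ∑ t, (m + Pi.single a 1 : τ → ℕ) t :=
      Finset.single_le_sum (f := (m + Pi.single a 1 : τ → ℕ)) (fun _ _ => Nat.zero_le _)
        (Finset.mem_univ t)
    omega
  · intro m _ _ m' _ _ h
    exact add_right_cancel h
  · intro m hm h2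
    have ha : m a ≠ 0 := by
      intro h0
      apply h2
      rw [h0]; simp
    have hle : (Pi.single a 1 : τ → ℕ) ≤ m := by
      intro t
      by_cases h : t = a
      · rw [h, Pi.single_eq_same]; exact Nat.one_le_iff_ne_zero.2 ha
      · rw [Pi.single_eq_of_ne h]; exact Nat.zero_le _
    refine ⟨m - Pi.single a 1, ?_, ?_, tsub_add_cancel_of_le hle⟩
    · rw [Fintype.mem_piFinset] at hm ⊢
      intro t
      have h5 := Finset.mem_range.1 (hm t)
      rw [Finset.mem_range, Pi.sub_apply]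
      exact lt_of_le_of_lt (Nat.sub_le _ _) h5
    · rw [tsub_add_cancel_of_le hle]
      refine div_ne_zero (fun h0 => h2 (by rw [h0, zero_div, mul_zero])) (hp0 _)
  · intro m _ _
    rw [hprod, Pi.add_apply, Pi.single_eq_same]
    have h1 : ((m a + 1 : ℕ) : ℂ) ≠ 0 := Nat.cast_ne_zero.2 (Nat.succ_ne_zero (m a))
    have h2 := hp0 m
    field_simp

theorem cl : CL := by
  intro τ _ _ N
  induction N with
  | zero =>
    intro L _ Φ hΦ
    rw [Fintype.sum_unique, Finset.sum_eq_single (0 : τ → ℕ)]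
    · have : cnt (default : Fin 0 → τ) = 0 := by
        funext t; rw [cnt_eq_sum]; simp
      rw [this]; simp
    · intro m _ hm
      rw [hΦ m, zero_div]
      intro h0
      apply hm
      funext t
      exact (Finset.sum_eq_zero_iff.1 h0) t (Finset.mem_univ t)
    · intro h
      exact absurd (Fintype.mem_piFinset.2 fun t => by simp) h
  | succ N ih =>
    intro L hL Φ hΦ
    rw [sum_words_succ]
    have h1 : ∀ a : τ, ∑ u : Fin N → τ, Φ (cnt (Fin.cons a u : Fin (N + 1) → τ)) =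
        (N.factorial : ℂ) * ∑ m ∈ Fintype.piFinset (fun _ : τ => range (L + 1)),
          (m a : ℂ) * (Φ m / ∏ t, ((m t).factorial : ℂ)) := by
      intro a
      rw [← shift_sum N L hL Φ hΦ a]
      refine Eq.trans (Finset.sum_congr rfl fun u _ => by rw [cnt_cons])
        (ih L (by omega) (fun m => Φ (m + Pi.single a 1)) ?_)
      intro m hm
      refine hΦ _ ?_
      have : ∑ t, (m + Pi.single a 1 : τ → ℕ) t = (∑ t, m t) + 1 := by
        simp [Finset.sum_add_distrib]
      omega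
    rw [Finset.sum_congr rfl fun a _ => h1 a, ← Finset.mul_sum, Finset.sum_comm,
      Nat.factorial_succ]
    push_cast
    rw [mul_comm ((N : ℂ) + 1), mul_assoc]
    congr 1
    rw [Finset.mul_sum]
    refine Finset.sum_congr rfl fun m _ => ?_
    rw [← Finset.sum_mul]
    by_cases hm : ∑ t, m t = N + 1
    · have : (∑ t, (m t : ℂ)) = (N : ℂ) + 1 := by exact_mod_cast hm
      rw [this]
    · rw [hΦ m hm]; simp

end Pool.Agent.Hol.H84
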