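import Pool.Agent.Lib.MP_a60258_hol.H84.CL

/-!
# The Leibniz rule on words
-/

open Finset MvPolynomial

namespace Pool.Agent.Hol.H84

theorem prod_fact_shift {τ : Type} [Fintype τ] [DecidableEq τ] (m : τ → ℕ) (a : τ) :
    ∏ t, ((((m + Pi.single a 1 : τ → ℕ)) t).factorial : ℂ) =
      ((m a : ℂ) + 1) * ∏ t, ((m t).factorial : ℂ) := by
  rw [← Finset.mul_prod_erase Finset.univ _ (Finset.mem_univ a), ← Finset.mul_prod_erase
    Finset.univ (fun t => ((m t).factorial : ℂ)) (Finset.mem_univ a), ← mul_assoc]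
  congr 1
  · rw [Pi.add_apply, Pi.single_eq_same, Nat.factorial_succ]
    push_cast; ring
  · refine Finset.prod_congr rfl fun t ht => ?_
    rw [Pi.add_apply, Pi.single_eq_of_ne (Finset.ne_of_mem_erase ht), add_zero]

theorem symm_add_single {σ : Type} [Finite σ] [DecidableEq σ] (m : σ → ℕ) (s : σ) :
    Finsupp.equivFunOnFinite.symm (m + Pi.single s 1 : σ → ℕ)
      = Finsupp.equivFunOnFinite.symm m + Finsupp.single s 1 := by
  ext t
  by_cases h : t = s
  · subst h; simp
  · simp [Pi.single_eq_of_ne h, Finsupp.single_eq_of_ne h]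

theorem fc_pderiv {σ : Type} [Fintype σ] [DecidableEq σ] (F : MvPolynomial σ ℂ) (s : σ)
    (m : σ → ℕ) : fc (pderiv s F) m = fc F (m + Pi.single s 1) := by
  rw [fc, fc, coeff_pderiv, prod_fact_shift, symm_add_single]
  simp only [Finsupp.equivFunOnFinite_symm_apply_apply]
  ring

theorem fc_hom {σ : Type} [Fintype σ] [DecidableEq σ] (F : MvPolynomial σ ℂ) (p : ℕ)
    (hF : F.IsHomogeneous p) (m : σ → ℕ) (hm : ∑ s, m s ≠ p) : fc F m = 0 := by
  rw [fc, hF.coeff_eq_zero, mul_zero]
  rw [Finsupp.degree_eq_sum]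
  simpa using hm

theorem fcd : FCD := fun _ _ _ F => ⟨fun s m => fc_pderiv F s m, fun p hF m hm =>
  fc_hom F p hF m hm⟩

theorem fc_sum {σ : Type} [Fintype σ] [DecidableEq σ] {ι : Type} (S : Finset ι)
    (G : ι → MvPolynomial σ ℂ) (m : σ → ℕ) :
    fc (∑ j ∈ S, G j) m = ∑ j ∈ S, fc (G j) m := by
  rw [fc, coeff_sum, Finset.mul_sum]
  rfl

theorem pderiv_prod {σ : Type} {ι : Type} [DecidableEq ι] (a : σ) (S : Finset ι)
    (F : ι → MvPolynomial σ ℂ) :
    pderiv a (∏ i ∈ S, F i) = ∑ j ∈ S, (∏ i ∈ S, Function.update F j (pderiv a (F j)) i) := by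
  induction S using Finset.induction_on with
  | empty => simp
  | insert b S hb ih =>
    rw [Finset.prod_insert hb, Derivation.leibniz, ih, Finset.sum_insert hb,
      Finset.prod_insert hb, Function.update_self, smul_eq_mul, smul_eq_mul, add_comm]
    congr 1
    · rw [mul_comm]
      congr 1
      refine Finset.prod_congr rfl fun i hi => ?_
      rw [Function.update_of_ne]
      rintro rfl
      exact hb hi
    · rw [Finset.mul_sum]
      refine Finset.sum_congr rfl fun j hj => ?_
      rw [Finset.prod_insert hb, Function.update_of_ne]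
      rintro rfl
      exact hb hj

theorem card_cons {σ : Type} [DecidableEq σ] {k N : ℕ} (a : σ) (v : Fin N → σ) (j : Fin k)
    (w : Fin N → Fin k) (s : σ) (i : Fin k) :
    #{n | (Fin.cons a v : Fin (N + 1) → σ) n = s ∧ (Fin.cons j w : Fin (N + 1) → Fin k) n = i}
      = #{n | v n = s ∧ w n = i} + if a = s ∧ j = i then 1 else 0 := by
  rw [Finset.card_filter, Fin.sum_univ_succ, Finset.card_filter]
  simp only [Fin.cons_zero, Fin.cons_succ]
  rw [add_comm]

theorem leib : LEIB := by
  intro σ _ _ k N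
  induction N with
  | zero =>
    intro F v
    rw [Fintype.sum_unique]
    have h0 : ∀ G : MvPolynomial σ ℂ, fc G 0 = constantCoeff G := by
      intro G
      rw [fc, constantCoeff_eq]
      have : (Finsupp.equivFunOnFinite.symm (0 : σ → ℕ)) = 0 := by ext; rfl
      rw [this]; simp
    have h1 : cnt v = 0 := by
      funext t; rw [cnt_eq_sum]; simp
    rw [h1, h0, map_prod]
    refine Finset.prod_congr rfl fun i _ => ?_
    rw [← h0]
    congr 1
  | succ N ih =>
    intro F v
    obtain ⟨a, v', rfl⟩ : ∃ a v', v = Fin.cons a v' := ⟨v 0, Fin.tail v, (Fin.cons_self_tail v).symm⟩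
    rw [cnt_cons, ← fc_pderiv, pderiv_prod, fc_sum, sum_words_succ]
    refine Finset.sum_congr rfl fun j _ => ?_
    rw [ih]
    refine Finset.sum_congr rfl fun w _ => Finset.prod_congr rfl fun i _ => ?_
    by_cases h : i = j
    · subst h
      rw [Function.update_self, fc_pderiv]
      congr 1
      funext s
      rw [card_cons, Pi.add_apply]
      congr 1
      by_cases hs : a = s
      · subst hs; simp
      · rw [if_neg (fun h => hs h.1), Pi.single_eq_of_ne (Ne.symm hs)]
    · rw [Function.update_of_ne h]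
      congr 1
      funext s
      rw [card_cons, if_neg (fun h' => h h'.2.symm), add_zero]

end Pool.Agent.Hol.H84
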